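import Pool.Agent.H27A.Gam
import Pool.Agent.H18C.Near

/-! Two hubs of a component whose neighbours in the component are not in one cluster. -/

namespace Pool.Agent.H55L

open List Pool.Agent.TF82 Pool.Agent.TFC Pool.Agent.EG31 Pool.Agent.H18C

universe u

set_option linter.unusedSectionVars false
set_option linter.unusedVariables false

variable {V : Type u} [DecidableEq V]

/-- the side of `v` in `Z - w` -/
noncomputable def Cw (G : SimpleGraph V) (Z : Finset V) (v w : V) : Finset V := by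
  classical
  exact (Z.erase w).filter (fun x => Reach G (Z.erase w) v x)

theorem mem_Cw {G : SimpleGraph V} {Z : Finset V} {v w x : V} :
    x ∈ Cw G Z v w ↔ x ∈ Z.erase w ∧ Reach G (Z.erase w) v x := by
  classical
  unfold Cw
  rw [Finset.mem_filter]

theorem sepV_iff {G : SimpleGraph V} {Z : Finset V} {v w x : V} (hx : x ∈ Z) :
    SepV G Z w v x ↔ x ∉ Cw G Z v w := by
  unfold SepV
  rw [mem_Cw, Finset.mem_erase]
  tauto

theorem Cw_closed {G : SimpleGraph V} {Z : Finset V} {v w x z : V} (hx : x ∈ Cw G Z v w)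
    (hz : z ∈ Z) (hzw : z ≠ w) (h : G.Adj x z) : z ∈ Cw G Z v w := by
  rw [mem_Cw] at hx ⊢
  have hz' : z ∈ Z.erase w := Finset.mem_erase.2 ⟨hzw, hz⟩
  exact ⟨hz', Relation.ReflTransGen.tail hx.2 ⟨hx.1, hz', h⟩⟩

/-- `w'` is not on the side of `v`: the side of `w'` is larger -/
theorem Cw_sub_of_not {G : SimpleGraph V} {Z : Finset V} {v w w' : V} (hv : v ∈ Z) (hvw : v ≠ w)
    (hvw' : v ≠ w') (h : w' ∉ Cw G Z v w) : Cw G Z v w ⊆ Cw G Z v w' := by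
  intro z hz
  have h1 := (mem_Cw.1 hz).2
  refine (closed_reach (S := Z.erase w) (T := Cw G Z v w ∩ Cw G Z v w') ?_ h1 ?_ |>
    fun h => (Finset.mem_inter.1 h).2)
  · intro x hx y hy hxy
    obtain ⟨h3, h4⟩ := Finset.mem_inter.1 hx
    have hy' := Finset.mem_erase.1 hy
    have h5 := Cw_closed h3 hy'.2 hy'.1 hxy
    refine Finset.mem_inter.2 ⟨h5, Cw_closed h4 hy'.2 ?_ hxy⟩
    rintro rfl
    exact h h5
  · refine Finset.mem_inter.2 ⟨mem_Cw.2 ⟨Finset.mem_erase.2 ⟨hvw, hv⟩,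
      Relation.ReflTransGen.refl⟩, mem_Cw.2 ⟨Finset.mem_erase.2 ⟨hvw', hv⟩,
      Relation.ReflTransGen.refl⟩⟩

/-- `w'` on the side of `v`, and a vertex behind both -/
theorem Cw_ssub {G : SimpleGraph V} {Z : Finset V} {v w w' a : V} (hZ : Conn1 G Z) (hv : v ∈ Z)
    (hw : w ∈ Z) (hvw : v ≠ w) (hvw' : v ≠ w') (h : w' ∈ Cw G Z v w) (ha : a ∈ Z)
    (h1 : a ∉ Cw G Z v w) (h2 : a ∉ Cw G Z v w') :
    Cw G Z v w' ⊆ (Cw G Z v w).erase w' := by
  have haw' : a ≠ w' := by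
    rintro rfl
    exact h1 h
  have hsep : Sep G Z a w (Cw G Z v w) := by
    refine ⟨hw, fun x hx => (mem_Cw.1 hx).1, ⟨w', h⟩, h1, ?_⟩
    intro x hx z hz hxz
    by_cases hzw : z = w
    · exact Or.inr hzw
    · exact Or.inl (Cw_closed hx hz hzw hxz)
  have hr := sep_reach hsep hZ ha
  have hnr : ¬ Reach G (Z.erase w') v w := by
    intro hcon
    apply h2
    refine mem_Cw.2 ⟨Finset.mem_erase.2 ⟨haw', ha⟩, Relation.ReflTransGen.trans hcon ?_⟩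
    refine Reach.mono ?_ hr
    intro x hx
    rw [Finset.mem_sdiff] at hx
    refine Finset.mem_erase.2 ⟨?_, hx.1⟩
    rintro rfl
    exact hx.2 h
  intro z hz
  have hz' := mem_Cw.1 hz
  refine Finset.mem_erase.2 ⟨(Finset.mem_erase.1 hz'.1).1, ?_⟩
  refine (closed_reach (S := Z.erase w') (T := Cw G Z v w' ∩ Cw G Z v w) ?_ hz'.2 ?_ |>
    fun h => (Finset.mem_inter.1 h).2)
  · intro x hx y hy hxy
    obtain ⟨h3, h4⟩ := Finset.mem_inter.1 hx
    have hy' := Finset.mem_erase.1 hy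
    have h5 := Cw_closed h3 hy'.2 hy'.1 hxy
    refine Finset.mem_inter.2 ⟨h5, Cw_closed h4 hy'.2 ?_ hxy⟩
    rintro rfl
    exact hnr (mem_Cw.1 h5).2
  · exact Finset.mem_inter.2 ⟨mem_Cw.2 ⟨Finset.mem_erase.2 ⟨hvw', hv⟩,
      Relation.ReflTransGen.refl⟩, mem_Cw.2 ⟨Finset.mem_erase.2 ⟨hvw, hv⟩,
      Relation.ReflTransGen.refl⟩⟩

/-- **two linked hubs**: in a graph without cut vertex a component `Z` with a good vertex has two
hubs with neighbours that are not in one cluster -/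
theorem two_linked {G : SimpleGraph V} {U C Z S : Finset V} (h2 : Conn2 G U) (hCU : C ⊆ U)
    (hC : 2 ≤ C.card) (hZU : Z ⊆ U) (hZC : ∀ z ∈ Z, z ∉ C) (hZ : Conn1 G Z)
    (hcl : ∀ w ∈ Z, ∀ z ∈ U, G.Adj w z → z ∈ Z ∨ z ∈ C) (hZ2 : 2 ≤ Z.card) {v : V}
    (hv : Good G Z S v) :
    ∃ a ∈ Z, ∃ a' ∈ Z, ∃ u ∈ C, ∃ u' ∈ C, u ≠ u' ∧ G.Adj u a ∧ G.Adj u' a' ∧
      ¬ Near G Z S a a' := by
  classical
  by_contra hcon
  push Not at hcon
  have hN : ∀ a ∈ Z, ∀ a' ∈ Z, ∀ u ∈ C, ∀ u' ∈ C, u ≠ u' → G.Adj a u → G.Adj a' u' → a ≠ a' →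
      ∃ w ∈ Z, w ≠ v ∧ a ∉ Cw G Z v w ∧ a' ∉ Cw G Z v w := by
    intro a ha a' ha' u hu u' hu' hne h1 h3 haa
    obtain ⟨w, hw, hwv, h4, h5⟩ := hcon a ha a' ha' u hu u' hu' hne h1.symm h3.symm haa v hv
    exact ⟨w, hw, hwv, (sepV_iff ha).1 h4, (sepV_iff ha').1 h5⟩
  obtain ⟨x, hx, hxv⟩ : ∃ x ∈ Z, x ≠ v := by
    obtain ⟨x, hx⟩ : (Z.erase v).Nonempty := Finset.card_pos.1 (by
      rw [Finset.card_erase_of_mem hv.mem]
      omega)
    exact ⟨x, (Finset.mem_erase.1 hx).2, (Finset.mem_erase.1 hx).1⟩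
  obtain ⟨p, q, c1, c2, hp, -, hq, hpq, hc1, hc2, hcc, hpc, hqc⟩ :=
    H27A.matching h2 hCU hC hZU hZC hcl hv.mem hx hxv.symm (fun _ => True) trivial
      (fun _ _ _ _ _ _ _ _ => trivial)
  have hex : ∃ n, ∃ w ∈ Z, w ≠ v ∧ p ∉ Cw G Z v w ∧ q ∉ Cw G Z v w ∧ (Cw G Z v w).card = n := by
    obtain ⟨w, h1, h3, h4, h5⟩ := hN p hp q hq c1 hc1 c2 hc2 hcc hpc hqc hpq
    exact ⟨_, w, h1, h3, h4, h5, rfl⟩
  obtain ⟨w, hw, hwv, hpw, hqw, hcard⟩ := Nat.find_spec hex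
  have hmin : ∀ w' ∈ Z, w' ≠ v → p ∉ Cw G Z v w' → q ∉ Cw G Z v w' →
      (Cw G Z v w).card ≤ (Cw G Z v w').card := by
    intro w' h1 h3 h4 h5
    rw [hcard]
    exact Nat.find_min' hex ⟨w', h1, h3, h4, h5, rfl⟩
  have hvC : v ∈ Cw G Z v w :=
    mem_Cw.2 ⟨Finset.mem_erase.2 ⟨hwv.symm, hv.mem⟩, Relation.ReflTransGen.refl⟩
  -- an exit of the side of `v`
  have hexit : ∃ a ∈ Cw G Z v w, ∃ u ∈ C, G.Adj a u := by
    by_contra hno
    push Not at hno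
    have hwC : w ∉ C := hZC w hw
    have hr := h2 w (hZU hw) v (Finset.mem_erase.2 ⟨hwv.symm, hZU hv.mem⟩) c1
      (Finset.mem_erase.2 ⟨fun h => hwC (h ▸ hc1), hCU hc1⟩)
    have := closed_reach (S := U.erase w) (T := Cw G Z v w) (by
      intro x hx z hz hxz
      have hz' := Finset.mem_erase.1 hz
      have hxZ : x ∈ Z := (Finset.mem_erase.1 (mem_Cw.1 hx).1).2
      rcases hcl x hxZ z hz'.2 hxz with h | h
      · exact Cw_closed hx h hz'.1 hxz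
      · exact absurd hxz (hno x hx z h)) hr hvC
    exact hZC c1 (Finset.mem_erase.1 (mem_Cw.1 this).1).2 hc1
  obtain ⟨a, ha, u, hu, hau⟩ := hexit
  have haZ : a ∈ Z := (Finset.mem_erase.1 (mem_Cw.1 ha).1).2
  have key : ∀ r ∈ Z, ∀ s ∈ Z, ∀ c ∈ C, c ≠ u → G.Adj r c → r ∉ Cw G Z v w →
      s ∉ Cw G Z v w → (∀ w' ∈ Z, w' ≠ v → r ∉ Cw G Z v w' → s ∉ Cw G Z v w' →
      (Cw G Z v w).card ≤ (Cw G Z v w').card) → False := by
    intro r hr s hs c hc hcu hrc hrw hsw hm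
    obtain ⟨w', h1, h3, h4, h5⟩ := hN r hr a haZ c hc u hu hcu hrc hau (by
      rintro rfl
      exact hrw ha)
    have hw' : w' ∈ Cw G Z v w := by
      by_contra hno
      exact h5 (Cw_sub_of_not hv.mem hwv.symm h3.symm hno ha)
    have h6 := Cw_ssub hZ hv.mem hw hwv.symm h3.symm hw' hr hrw h4
    have h7 := hm w' h1 h3 h4 (fun hcon => hsw (Finset.mem_erase.1 (h6 hcon)).2)
    have h8 := Finset.card_le_card h6
    rw [Finset.card_erase_of_mem hw'] at h8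
    have h9 : 0 < (Cw G Z v w).card := Finset.card_pos.2 ⟨_, hw'⟩
    omega
  by_cases hc : c1 = u
  · exact key q hq p hp c2 hc2 (fun h => hcc (hc.trans h.symm)) hqc hqw hpw
      (fun w' h1 h3 h4 h5 => hmin w' h1 h3 h5 h4)
  · exact key p hp q hq c1 hc1 hc hpc hpw hqw hmin

end Pool.Agent.H55L
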