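import Mathlib

/-! Arithmetic of the label lemma (MP_12c032, LAB). -/

namespace Pool.Agent.H55L

/-- `beta` long runs and few labels: the links are longer than the number of labels -/
theorem lam_gt {N L β h : ℕ} (h3 : 3 ≤ L) (hL : N + 3 ≤ L + β) (hb : β * h ≤ N)
    (hh : L ≤ 2 * h) : N + 1 ≤ L := by
  by_contra hcon
  have hLN : L ≤ N := by omega
  obtain ⟨d, rfl⟩ := Nat.exists_eq_add_of_le hLN
  obtain ⟨e, rfl⟩ := Nat.exists_eq_add_of_le h3
  have hβ : d + 3 ≤ β := by omega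
  have h1 : (d + 3) * (3 + e) ≤ β * (2 * h) := Nat.mul_le_mul hβ hh
  have h2 : β * (2 * h) = 2 * (β * h) := by ring
  have h4 : (d + 3) * (3 + e) ≤ 2 * (3 + e + d) := by
    rw [h2] at h1
    omega
  nlinarith [Nat.zero_le (d * e)]

/-- the half of `L`, rounded up -/
theorem half_up (L : ℕ) : L ≤ 2 * ((L + 1) / 2) ∧ 2 * ((L + 1) / 2) ≤ L + 1 := by
  omega

/-- two runs together have at most `N` vertices -/
theorem two_runs {N L g g' : ℕ} (hL : N + 1 ≤ L)
    (h : ∀ a ≤ g, ∀ a' ≤ g', a ≤ L → a' ≤ L → a + a' ≤ L + 1 → a + a' ≤ N) : g + g' ≤ N := by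
  by_contra hcon
  rcases Nat.le_total g (N + 1) with h1 | h1
  · have := h g le_rfl (N + 1 - g) (by omega) (by omega) (by omega) (by omega)
    omega
  · have := h (N + 1) h1 0 (Nat.zero_le _) (by omega) (by omega) (by omega)
    omega

/-- one run has at most `N` vertices -/
theorem one_run {N L g : ℕ} (hL : N + 1 ≤ L) (h : ∀ a ≤ g, a ≤ L → a ≤ N) : g ≤ N := by
  by_contra hcon
  have := h (N + 1) (by omega) (by omega)
  omega

end Pool.Agent.H55L
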